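import Pool.Agent.H58.FN.Targets

/-! MP_6a7a6f_gt, fnc_modules, row TTT3: no two triangles (after Pool/Agent/H59/FLD/TTT.lean). -/

set_option autoImplicit false

open Pool.Agent.H59 Pool.Agent.H48.FR Pool.Agent.H58.FL Pool.Agent.H30.FA Pool.Agent.H58.FM
  Pool.Agent.H58.FN

namespace Pool.Agent.H7.FN.TTT3

section
variable {E : Type} [NormedAddCommGroup E] [InnerProductSpace ℂ E]

private theorem tri (hMN3 : T_MN3) (p : Fin 6 → E) (hc : Cl3 p) (i j k : Fin 6) :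
    ar (p j) (p i) (p k) = -ar (p i) (p j) (p k) ∧
      ar (p i) (p k) (p j) = -ar (p i) (p j) (p k) ∧
      ar (p j) (p k) (p i) = ar (p i) (p j) (p k) ∧
      ar (p k) (p i) (p j) = ar (p i) (p j) (p k) ∧
      ar (p k) (p j) (p i) = -ar (p i) (p j) (p k) := by
  obtain ⟨a1, a2, a3, a4, a5, _⟩ := (hMN3 E).1 (fun x : Fin 3 => p (![i, j, k] x))
    ⟨fun _ => hc.1 _, fun _ _ => hc.2 _ _⟩
  exact ⟨a1, a2, a3, a4, a5⟩

private theorem wheel (hW4A : T_W4A) (hMN3 : T_MN3) (p : Fin 6 → E) (hc : Cl3 p)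
    (h a b c d : Fin 6) :
    ar (p h) (p a) (p b) + ar (p h) (p b) (p c) + ar (p h) (p c) (p d) +
        ar (p h) (p d) (p a) < 2 * Real.pi ∧
    -(2 * Real.pi) < ar (p h) (p a) (p b) + ar (p h) (p b) (p c) + ar (p h) (p c) (p d) +
        ar (p h) (p d) (p a) := by
  have w1 := hW4A E (p h) (p a) (p b) (p c) (p d) (hc.1 h) (hc.1 a) (hc.1 b) (hc.1 c) (hc.1 d)
      (hc.2 h a) (hc.2 h b) (hc.2 h c) (hc.2 h d) (hc.2 a b) (hc.2 b c) (hc.2 c d) (hc.2 d a)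
  have w2 := hW4A E (p h) (p a) (p d) (p c) (p b) (hc.1 h) (hc.1 a) (hc.1 d) (hc.1 c) (hc.1 b)
      (hc.2 h a) (hc.2 h d) (hc.2 h c) (hc.2 h b) (hc.2 a d) (hc.2 d c) (hc.2 c b) (hc.2 b a)
  rw [(tri hMN3 p hc h d a).2.1, (tri hMN3 p hc h c d).2.1, (tri hMN3 p hc h b c).2.1,
    (tri hMN3 p hc h a b).2.1] at w2
  exact ⟨w1, by linarith⟩

private theorem core (hW4A : T_W4A) (hMN3 : T_MN3) (p : Fin 6 → E) (hc : Cl3 p) (s : ℝ)
    (hs : s = 1 ∨ s = -1)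
    (m1 : mn (p 0) (p 1) (p 2) (p 3) = s) (m2 : mn (p 0) (p 1) (p 2) (p 5) = s)
    (m3 : mn (p 0) (p 3) (p 4) (p 5) = s) (z1 : mn (p 0) (p 1) (p 3) (p 5) = 0)
    (z2 : mn (p 0) (p 1) (p 4) (p 5) = 0) (z3 : mn (p 0) (p 2) (p 3) (p 4) = 0)
    (z4 : mn (p 0) (p 2) (p 4) (p 5) = 0) : False := by
  have hpi := Real.pi_pos
  have hM : ∀ (i j k l : Fin 6) (c : ℝ), mn (p i) (p j) (p k) (p l) = c →
      ar (p j) (p k) (p l) - ar (p i) (p k) (p l) + ar (p i) (p j) (p l) -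
        ar (p i) (p j) (p k) = c * (2 * Real.pi) := by
    intro i j k l c h
    unfold mn at h
    rw [div_eq_iff (by positivity)] at h
    exact h
  have e1 := hM _ _ _ _ _ m1
  have e2 := hM _ _ _ _ _ m2
  have e3 := hM _ _ _ _ _ m3
  have e4 := hM _ _ _ _ _ z1
  have e5 := hM _ _ _ _ _ z2
  have e6 := hM _ _ _ _ _ z3
  have e7 := hM _ _ _ _ _ z4
  have tr := tri hMN3 p hc
  have wh := wheel hW4A hMN3 p hc
  have w1 := wh 1 0 2 5 4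
  have w2 := wh 0 1 3 5 2
  have w3 := wh 4 0 1 5 3
  have w4 := wh 5 0 3 4 2
  have w5 := wh 3 1 2 4 5
  have w6 := wh 2 0 4 3 1
  rw [(tr 0 1 2).1, (tr 1 4 5).2.1, (tr 0 1 4).2.2.1] at w1
  rw [(tr 0 2 5).2.1, (tr 0 1 2).2.1] at w2
  rw [(tr 0 1 4).2.2.2.1, (tr 1 4 5).1, (tr 3 4 5).2.2.1, (tr 0 3 4).2.2.2.2] at w3
  rw [(tr 0 3 5).2.2.2.1, (tr 3 4 5).2.2.2.1, (tr 2 4 5).2.2.2.2, (tr 0 2 5).2.2.2.2] at w4
  rw [(tr 1 2 3).2.2.2.1, (tr 2 3 4).1, (tr 1 3 5).2.2.1] at w5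
  rw [(tr 0 2 4).1, (tr 2 3 4).2.1, (tr 1 2 3).2.2.1, (tr 0 1 2).2.2.2.2] at w6
  rcases hs with hs | hs
  · subst hs
    linarith [w1.1, w2.1, w3.1, w4.1, w5.1, w6.1]
  · subst hs
    linarith [w1.2, w2.2, w3.2, w4.2, w5.2, w6.2]

/-- the symmetries of the monopole number -/
private theorem sy (hMN3 : T_MN3) (p : Fin 6 → E) (hc : Cl3 p) (i j k l : Fin 6) :
    (mn (p i) (p j) (p k) (p l) = 0 ∨ mn (p i) (p j) (p k) (p l) = 1 ∨
      mn (p i) (p j) (p k) (p l) = -1) ∧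
    mn (p j) (p i) (p k) (p l) = -mn (p i) (p j) (p k) (p l) ∧
    mn (p i) (p k) (p j) (p l) = -mn (p i) (p j) (p k) (p l) ∧
    mn (p i) (p j) (p l) (p k) = -mn (p i) (p j) (p k) (p l) :=
  (hMN3 E).2.1 (fun x : Fin 4 => p (![i, j, k, l] x)) ⟨fun _ => hc.1 _, fun _ _ => hc.2 _ _⟩

/-- two monopoles in five points -/
private theorem five (hMN3 : T_MN3) (hR53 : T_R53) (p : Fin 6 → E) (hc : Cl3 p)
    (i j k l n : Fin 6)
    (h1 : mn (p i) (p j) (p k) (p l) ≠ 0) (h2 : mn (p i) (p j) (p k) (p n) ≠ 0) :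
    mn (p j) (p k) (p l) (p n) = 0 ∧ mn (p i) (p k) (p l) (p n) = 0 ∧
      mn (p i) (p j) (p l) (p n) = 0 := by
  have h := hR53 E (fun x : Fin 5 => p (![i, j, k, l, n] x)) ⟨fun _ => hc.1 _, fun _ _ => hc.2 _ _⟩
    h1
  have h' : (mn (p n) (p j) (p k) (p l) ≠ 0 ∧ mn (p i) (p n) (p k) (p l) = 0 ∧
    mn (p i) (p j) (p n) (p l) = 0 ∧ mn (p i) (p j) (p k) (p n) = 0) ∨
  (mn (p n) (p j) (p k) (p l) = 0 ∧ mn (p i) (p n) (p k) (p l) ≠ 0 ∧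
    mn (p i) (p j) (p n) (p l) = 0 ∧ mn (p i) (p j) (p k) (p n) = 0) ∨
  (mn (p n) (p j) (p k) (p l) = 0 ∧ mn (p i) (p n) (p k) (p l) = 0 ∧
    mn (p i) (p j) (p n) (p l) ≠ 0 ∧ mn (p i) (p j) (p k) (p n) = 0) ∨
  (mn (p n) (p j) (p k) (p l) = 0 ∧ mn (p i) (p n) (p k) (p l) = 0 ∧
    mn (p i) (p j) (p n) (p l) = 0 ∧ mn (p i) (p j) (p k) (p n) ≠ 0) := h
  have q : mn (p n) (p j) (p k) (p l) = 0 ∧ mn (p i) (p n) (p k) (p l) = 0 ∧
      mn (p i) (p j) (p n) (p l) = 0 := by tauto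
  obtain ⟨q1, q2, q3⟩ := q
  have s := sy hMN3 p hc
  refine ⟨?_, ?_, ?_⟩
  · -- n j k l -> j n k l -> j k n l -> j k l n
    have a1 := (s n j k l).2.1
    have a2 := (s j n k l).2.2.1
    have a3 := (s j k n l).2.2.2
    linarith
  · have a2 := (s i n k l).2.2.1
    have a3 := (s i k n l).2.2.2
    linarith
  · have a3 := (s i j n l).2.2.2
    linarith

end

theorem pf_TTT3 (hW4A : T_W4A) (hMN3 : T_MN3) (hR53 : T_R53) : T_TTT3 := by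
  intro E _ _ p hc n0123 n0124 n0125 n0345 n1345 n2345
  have s := sy hMN3 p hc
  have coc := (hMN3 E).2.2
  have fiv := five hMN3 hR53 p hc
  have f1 := fiv 0 1 2 3 4 n0123 n0124
  have f2 := fiv 0 1 2 3 5 n0123 n0125
  have f3 := fiv 0 1 2 4 5 n0124 n0125
  -- the values
  have c1 := coc (p 0) (p 1) (p 2) (p 3) (p 4)
  have c2 := coc (p 0) (p 1) (p 2) (p 3) (p 5)
  have v1 : mn (p 0) (p 1) (p 2) (p 4) = mn (p 0) (p 1) (p 2) (p 3) := by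
    linarith [f1.1, f1.2.1, f1.2.2]
  have v2 : mn (p 0) (p 1) (p 2) (p 5) = mn (p 0) (p 1) (p 2) (p 3) := by
    linarith [f2.1, f2.2.1, f2.2.2]
  have t1 : mn (p 0) (p 1) (p 2) (p 3) = 1 ∨ mn (p 0) (p 1) (p 2) (p 3) = -1 :=
    (s 0 1 2 3).1.resolve_left n0123
  have t2 : mn (p 0) (p 3) (p 4) (p 5) = 1 ∨ mn (p 0) (p 3) (p 4) (p 5) = -1 :=
    (s 0 3 4 5).1.resolve_left n0345
  by_cases hsr : mn (p 0) (p 3) (p 4) (p 5) = mn (p 0) (p 1) (p 2) (p 3)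
  · exact core hW4A hMN3 p hc _ t1 rfl v2 hsr f2.2.2 f3.2.2 f1.2.1 f3.2.1
  · have hr : mn (p 0) (p 3) (p 5) (p 4) = mn (p 0) (p 1) (p 2) (p 3) := by
      have := (s 0 3 4 5).2.2.2
      rcases t1 with h1 | h1 <;> rcases t2 with h2 | h2
      · exact absurd (h2.trans h1.symm) hsr
      · rw [this, h2, h1]; norm_num
      · rw [this, h2, h1]
      · exact absurd (h2.trans h1.symm) hsr
    refine core hW4A hMN3 (fun x => p (![0, 1, 2, 3, 5, 4] x))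
      ⟨fun _ => hc.1 _, fun _ _ => hc.2 _ _⟩
      (mn (p 0) (p 1) (p 2) (p 3)) t1 rfl v1 hr f1.2.2 ?_ f2.2.1 ?_
    · have := (s 0 1 4 5).2.2.2
      have h3 := f3.2.2
      change mn (p 0) (p 1) (p 5) (p 4) = 0
      linarith
    · have := (s 0 2 4 5).2.2.2
      have h3 := f3.2.1
      change mn (p 0) (p 2) (p 5) (p 4) = 0
      linarith

end Pool.Agent.H7.FN.TTT3
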