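import Pool.Agent.H6.FN.TargetsG

/-!
# MP_7500ea_al, board fcn_modules: automorphisms which map 3-cycles to 3-cycles (A3I)
-/

set_option autoImplicit false

namespace Pool.Agent.H7.FN

open Equiv Equiv.Perm

section

variable {α : Type}

/-- `t` is the 3-cycle `a → b → c → a` -/
private structure C3 (t : Perm α) (a b c : α) : Prop where
  ab : a ≠ b
  bc : b ≠ c
  ca : c ≠ a
  fa : t a = b
  fb : t b = c
  fc : t c = a
  fz : ∀ z, z ≠ a → z ≠ b → z ≠ c → t z = z

private theorem C3.rot {t : Perm α} {a b c : α} (h : C3 t a b c) : C3 t b c a :=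
  ⟨h.bc, h.ca, h.ab, h.fb, h.fc, h.fa, fun z h1 h2 h3 => h.fz z h3 h1 h2⟩

private theorem C3.ext {t t' : Perm α} {a b c : α} (h : C3 t a b c) (h' : C3 t' a b c) :
    t = t' := by
  refine Equiv.ext fun z => ?_
  by_cases h1 : z = a
  · rw [h1, h.fa, h'.fa]
  by_cases h2 : z = b
  · rw [h2, h.fb, h'.fb]
  by_cases h3 : z = c
  · rw [h3, h.fc, h'.fc]
  rw [h.fz z h1 h2 h3, h'.fz z h1 h2 h3]

private theorem C3.inv {t : Perm α} {a b c : α} (h : C3 t a b c) : C3 t⁻¹ b a c := by
  refine ⟨h.ab.symm, h.ca.symm, h.bc.symm, ?_, ?_, ?_, ?_⟩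
  · rw [Perm.inv_eq_iff_eq, h.fa]
  · rw [Perm.inv_eq_iff_eq, h.fc]
  · rw [Perm.inv_eq_iff_eq, h.fb]
  · intro z h1 h2 h3
    rw [Perm.inv_eq_iff_eq, h.fz z h2 h1 h3]

private theorem C3.conj {t : Perm α} {a b c : α} (h : C3 t a b c) (σ : Perm α) :
    C3 (σ * t * σ⁻¹) (σ a) (σ b) (σ c) := by
  have hk : ∀ z, (σ * t * σ⁻¹) (σ z) = σ (t z) := by
    intro z
    simp
  refine ⟨σ.injective.ne h.ab, σ.injective.ne h.bc, σ.injective.ne h.ca, ?_, ?_, ?_, ?_⟩
  · rw [hk, h.fa]
  · rw [hk, h.fb]
  · rw [hk, h.fc]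
  · intro z h1 h2 h3
    obtain ⟨w, rfl⟩ := σ.surjective z
    rw [hk, h.fz w (fun hh => h1 (by rw [hh])) (fun hh => h2 (by rw [hh]))
      (fun hh => h3 (by rw [hh]))]

private theorem C3.moved {t : Perm α} {a b c z : α} (h : C3 t a b c) (hz : t z ≠ z) :
    z = a ∨ z = b ∨ z = c := by
  by_contra hcon
  rw [not_or, not_or] at hcon
  exact hz (h.fz z hcon.1 hcon.2.1 hcon.2.2)

variable [Fintype α] [DecidableEq α]

private theorem of_three {t : Perm α} (h : t.IsThreeCycle) {c : α} (hc : t c ≠ c) :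
    C3 t c (t c) (t (t c)) := by
  have h3 : t ^ 3 = 1 := by
    rw [← h.orderOf]
    exact pow_orderOf_eq_one t
  have h4 : t (t (t c)) = c := by
    have h5 := congrArg (fun s : Perm α => s c) h3
    simpa [pow_succ] using h5
  have h5 : t (t c) ≠ t c := fun hh => hc (t.injective hh)
  have h6 : t (t c) ≠ c := by
    intro hh
    rw [hh] at h4
    exact hc h4
  refine ⟨hc.symm, h5.symm, h6, rfl, rfl, h4, ?_⟩
  intro z h7 h8 h9
  by_contra hz
  have hcard := h.card_support
  have hsub : ({c, t c, t (t c), z} : Finset α) ⊆ t.support := by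
    intro y hy
    rw [Finset.mem_insert, Finset.mem_insert, Finset.mem_insert, Finset.mem_singleton] at hy
    rw [Perm.mem_support]
    rcases hy with rfl | rfl | rfl | rfl
    · exact hc
    · exact h5
    · rw [h4]
      exact h6.symm
    · exact hz
  have hc4 : ({c, t c, t (t c), z} : Finset α).card = 4 := by
    rw [Finset.card_insert_of_notMem, Finset.card_insert_of_notMem,
      Finset.card_insert_of_notMem, Finset.card_singleton]
    · rw [Finset.mem_singleton]
      exact h9.symm
    · rw [Finset.mem_insert, Finset.mem_singleton]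
      rintro (hh | hh)
      · exact h5 hh.symm
      · exact h8 hh.symm
    · rw [Finset.mem_insert, Finset.mem_insert, Finset.mem_singleton]
      rintro (hh | hh | hh)
      · exact hc hh.symm
      · exact h6 hh.symm
      · exact h7 hh.symm
  have := Finset.card_le_card hsub
  omega

private theorem C3.cyc {a b c : α} (ab : a ≠ b) (bc : b ≠ c) (ca : c ≠ a) :
    C3 (swap a c * swap a b) a b c := by
  refine ⟨ab, bc, ca, ?_, ?_, ?_, ?_⟩
  · rw [Perm.mul_apply, swap_apply_left, swap_apply_of_ne_of_ne ab.symm bc]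
  · rw [Perm.mul_apply, swap_apply_right, swap_apply_left]
  · rw [Perm.mul_apply, swap_apply_of_ne_of_ne ca bc.symm, swap_apply_right]
  · intro z h1 h2 h3
    rw [Perm.mul_apply, swap_apply_of_ne_of_ne h1 h2, swap_apply_of_ne_of_ne h1 h3]

private theorem C3.three {t : Perm α} {a b c : α} (h : C3 t a b c) : t.IsThreeCycle := by
  rw [h.ext (C3.cyc h.ab h.bc h.ca)]
  exact isThreeCycle_swap_mul_swap_same h.ca.symm h.ab h.bc.symm

private theorem pair {x y : Perm α} (hx : x.IsThreeCycle) (hy : y.IsThreeCycle)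
    (h1 : x * y * (x * y) = 1) (h2 : x * y ≠ 1) :
    ∃ a b c d, C3 x a b c ∧ C3 y a b d ∧ c ≠ d := by
  have h1' : ∀ z, x (y (x (y z))) = z := by
    intro z
    have := congrArg (fun s : Perm α => s z) h1
    simpa using this
  by_cases hs : ∀ c, x c ≠ c → y c ≠ c
  · exfalso
    obtain ⟨a, ha⟩ : ∃ a, x a ≠ a := by
      by_contra hcon
      push Not at hcon
      have : x = 1 := Equiv.ext hcon
      rw [this] at hx
      have h3 := hx.card_support
      rw [Perm.support_one] at h3
      exact absurd h3 (by simp)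
    have hX := of_three hx ha
    obtain ⟨b, hb⟩ : ∃ b, b = x a := ⟨_, rfl⟩
    obtain ⟨c, hc⟩ : ∃ c, c = x b := ⟨_, rfl⟩
    rw [← hb, ← hc] at hX
    have hY := of_three hy (hs a ha)
    have hyb : y b ≠ b := hs b (by rw [hX.fb]; exact hX.bc.symm)
    have hyc : y c ≠ c := hs c (by rw [hX.fc]; exact hX.ca.symm)
    rcases hY.moved hyb with h | h | h
    · exact hX.ab h.symm
    · -- y = x
      rcases hY.moved hyc with h' | h' | h'
      · exact hX.ca h'
      · exact hX.bc (h.trans h'.symm)
      · rw [← h'] at hY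
        rw [← h] at hY
        have h5 := hX.ext hY
        rw [← h5] at h1'
        have h6 := h1' a
        rw [hX.fa, hX.fb, hX.fc, hX.fa] at h6
        exact hX.ab h6.symm
    · rcases hY.moved hyc with h' | h' | h'
      · exact hX.ca h'
      · rw [← h] at hY
        rw [← h'] at hY
        -- y a = c, y c = b
        have h5 := hY.ext hX.inv.rot
        apply h2
        rw [h5, mul_inv_cancel]
      · exact hX.bc (h.trans h'.symm)
  · push Not at hs
    obtain ⟨c, hc, hyc⟩ := hs
    have hX := of_three hx hc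
    obtain ⟨a, ha⟩ : ∃ a, a = x c := ⟨_, rfl⟩
    obtain ⟨b, hb⟩ : ∃ b, b = x a := ⟨_, rfl⟩
    rw [← ha, ← hb] at hX
    have h3 := h1' c
    rw [hyc, ← ha] at h3
    -- x (y a) = c = x b
    have h4 : y a = b := x.injective (by rw [h3, hX.fc])
    have h5 : y a ≠ a := by
      rw [h4]
      exact hX.bc.symm
    have hY := of_three hy h5
    rw [h4] at hY
    refine ⟨a, b, c, y b, hX.rot, hY, ?_⟩
    intro hh
    have h6 := hY.fc
    rw [← hh, hyc] at h6
    exact hX.ab h6

private theorem main (φ : MulAut (alternatingGroup α))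
    (hφ : ∀ g : alternatingGroup α, (g : Perm α).IsThreeCycle →
      ((φ g : alternatingGroup α) : Perm α).IsThreeCycle)
    (p q r s : α) (hpq : p ≠ q) (hrp : r ≠ p) (hrq : r ≠ q) (hsp : s ≠ p) (hsq : s ≠ q)
    (hrs : r ≠ s) :
    ∃ σ : Perm α, ∀ g : alternatingGroup α,
      ((φ g : alternatingGroup α) : Perm α) = σ * g * σ⁻¹ := by
  have hU0 : ∀ i, ∃ g : alternatingGroup α, i ≠ p → i ≠ q → C3 (g : Perm α) p q i := by
    intro i
    by_cases h : i ≠ p ∧ i ≠ q
    · have h1 := C3.cyc hpq h.2.symm h.1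
      exact ⟨⟨_, h1.three.mem_alternatingGroup⟩, fun _ _ => h1⟩
    · exact ⟨1, fun h1 h2 => absurd ⟨h1, h2⟩ h⟩
  choose U hU using hU0
  obtain ⟨T, hT⟩ : ∃ T : α → Perm α, ∀ i, T i = ((φ (U i) : alternatingGroup α) : Perm α) :=
    ⟨_, fun _ => rfl⟩
  have hT3 : ∀ i, i ≠ p → i ≠ q → (T i).IsThreeCycle := by
    intro i h1 h2
    rw [hT]
    exact hφ _ (hU i h1 h2).three
  have hpair : ∀ i j, i ≠ p → i ≠ q → j ≠ p → j ≠ q → i ≠ j →
      ∃ a b c d, C3 (T i) a b c ∧ C3 (T j) a b d ∧ c ≠ d := by
    intro i j h1 h2 h3 h4 h5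
    have hi := hU i h1 h2
    have hj := hU j h3 h4
    refine pair (hT3 i h1 h2) (hT3 j h3 h4) ?_ ?_
    · have h6 : U i * U j * (U i * U j) = 1 := by
        apply Subtype.ext
        refine Equiv.ext fun z => ?_
        change (U i : Perm α) ((U j : Perm α) ((U i : Perm α) ((U j : Perm α) z))) = z
        by_cases e1 : z = p
        · rw [e1, hj.fa, hi.fb, hj.fz i h1 h2 h5, hi.fc]
        by_cases e2 : z = q
        · rw [e2, hj.fb, hi.fz j h3 h4 h5.symm, hj.fc, hi.fa]
        by_cases e3 : z = i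
        · rw [e3, hj.fz i h1 h2 h5, hi.fc, hj.fa, hi.fb]
        by_cases e4 : z = j
        · rw [e4, hj.fc, hi.fa, hj.fb, hi.fz j h3 h4 h5.symm]
        rw [hj.fz z e1 e2 e4, hi.fz z e1 e2 e3, hj.fz z e1 e2 e4, hi.fz z e1 e2 e3]
      rw [hT, hT]
      have h7 := congrArg (fun g => ((φ g : alternatingGroup α) : Perm α)) h6
      simpa using h7
    · intro h6
      rw [hT, hT] at h6
      have h7 : φ (U i * U j) = 1 := by
        apply Subtype.ext
        simpa using h6
      have h8 : U i * U j = 1 := by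
        rw [← map_one φ] at h7
        exact φ.injective h7
      have h9 : ((U i * U j : alternatingGroup α) : Perm α) p = p := by
        rw [h8]
        rfl
      change (U i : Perm α) ((U j : Perm α) p) = p at h9
      rw [hj.fa, hi.fb] at h9
      exact h1 h9
  obtain ⟨a, b, c, d, hR, hS, hcd⟩ := hpair r s hrp hrq hsp hsq hrs
  have hab : ∀ i, i ≠ p → i ≠ q → T i a = b := by
    intro i h1 h2
    by_cases hir : i = r
    · rw [hir]
      exact hR.fa
    by_cases his : i = s
    · rw [his]
      exact hS.fa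
    obtain ⟨a1, b1, e1, c1, hA, hB, hne⟩ := hpair i r h1 h2 hrp hrq hir
    obtain ⟨a2, b2, e2, d2, hA', hB', hne'⟩ := hpair i s h1 h2 hsp hsq his
    have hm1 : T r a1 ≠ a1 := by
      rw [hB.fa]
      exact hB.ab.symm
    have hm2 : T s a2 ≠ a2 := by
      rw [hB'.fa]
      exact hB'.ab.symm
    rcases hR.moved hm1 with h | h | h
    · subst h
      rw [hA.fa, ← hB.fa, hR.fa]
    · -- a1 = b
      have hb1 : b1 = c := by rw [← hB.fa, h, hR.fb]
      have hc1 : c1 = a := by rw [← hB.fb, hb1, hR.fc]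
      rcases hS.moved hm2 with h' | h' | h'
      · subst h'
        rw [hA'.fa, ← hB'.fa, hS.fa]
      · exfalso
        have h3 : b1 = b2 := by rw [← hA.fa, ← hA'.fa, h, h']
        have h4 : b2 = d := by rw [← hB'.fa, h', hS.fb]
        exact hcd (by rw [← hb1, h3, h4])
      · exfalso
        have h3 : T i d = a := by
          have h4 : b2 = a := by rw [← hB'.fa, h', hS.fc]
          rw [← h', hA'.fa, h4]
        have h4 : T i a = a := by
          refine hA.fz a ?_ ?_ ?_
          · rw [h]
            exact hR.ab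
          · rw [hb1]
            exact hR.ca.symm
          · rw [← hc1]
            exact hne.symm
        exact hS.ca ((T i).injective (h3.trans h4.symm))
    · -- a1 = c
      have hb1 : b1 = a := by rw [← hB.fa, h, hR.fc]
      have hc1 : c1 = b := by rw [← hB.fb, hb1, hR.fa]
      rcases hS.moved hm2 with h' | h' | h'
      · subst h'
        rw [hA'.fa, ← hB'.fa, hS.fa]
      · exfalso
        have h3 : T i b = d := by
          have h4 : b2 = d := by rw [← hB'.fa, h', hS.fb]
          rw [← h', hA'.fa, h4]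
        have h4 : T i b = b := by
          refine hA.fz b ?_ ?_ ?_
          · rw [h]
            exact hR.bc
          · rw [hb1]
            exact hR.ab.symm
          · rw [← hc1]
            exact hne.symm
        exact hS.bc (h4.symm.trans h3)
      · exfalso
        have h3 : T i d = a := by
          have h4 : b2 = a := by rw [← hB'.fa, h', hS.fc]
          rw [← h', hA'.fa, h4]
        have h4 : T i c = a := by rw [← h, hA.fa, hb1]
        exact hcd ((T i).injective (h4.trans h3.symm))
  have hTC : ∀ i, i ≠ p → i ≠ q → C3 (T i) a b (T i b) := by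
    intro i h1 h2
    have h3 := hab i h1 h2
    have h4 := of_three (hT3 i h1 h2) (c := a) (by rw [h3]; exact hR.ab.symm)
    rw [h3] at h4
    exact h4
  have hTinj : ∀ i j, i ≠ p → i ≠ q → j ≠ p → j ≠ q → T i b = T j b → i = j := by
    intro i j h1 h2 h3 h4 h5
    have h6 := hTC i h1 h2
    rw [h5] at h6
    have h7 : T i = T j := h6.ext (hTC j h3 h4)
    rw [hT, hT] at h7
    have h8 : U i = U j := φ.injective (Subtype.ext h7)
    rw [← (hU i h1 h2).fb, ← (hU j h3 h4).fb, h8]
  obtain ⟨f, hf⟩ : ∃ f : α → α, f = fun z => if z = p then a else if z = q then b else T z b :=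
    ⟨_, rfl⟩
  have fp : f p = a := by
    rw [hf]
    simp
  have fq : f q = b := by
    rw [hf]
    simp [hpq.symm]
  have fi : ∀ i, i ≠ p → i ≠ q → f i = T i b := by
    intro i h1 h2
    rw [hf]
    simp [h1, h2]
  have hinj : Function.Injective f := by
    intro x y hxy
    by_cases x1 : x = p
    · by_cases y1 : y = p
      · rw [x1, y1]
      · by_cases y2 : y = q
        · exfalso
          rw [x1, y2, fp, fq] at hxy
          exact hR.ab hxy
        · exfalso
          rw [x1, fp, fi y y1 y2] at hxy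
          exact (hTC y y1 y2).ca hxy.symm
    · by_cases x2 : x = q
      · by_cases y1 : y = p
        · exfalso
          rw [y1, x2, fp, fq] at hxy
          exact hR.ab hxy.symm
        · by_cases y2 : y = q
          · rw [x2, y2]
          · exfalso
            rw [x2, fq, fi y y1 y2] at hxy
            exact (hTC y y1 y2).bc hxy
      · by_cases y1 : y = p
        · exfalso
          rw [y1, fp, fi x x1 x2] at hxy
          exact (hTC x x1 x2).ca hxy
        · by_cases y2 : y = q
          · exfalso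
            rw [y2, fq, fi x x1 x2] at hxy
            exact (hTC x x1 x2).bc hxy.symm
          · rw [fi x x1 x2, fi y y1 y2] at hxy
            exact hTinj x y x1 x2 y1 y2 hxy
  obtain ⟨σ, hσ⟩ : ∃ σ : Perm α, ∀ z, σ z = f z :=
    ⟨Equiv.ofBijective f (Finite.injective_iff_bijective.1 hinj), fun _ => rfl⟩
  refine ⟨σ, ?_⟩
  -- the elements on which the two maps agree
  let F1 : alternatingGroup α →* Perm α := (alternatingGroup α).subtype.comp φ.toMonoidHom
  let F2 : alternatingGroup α →* Perm α := (MulAut.conj σ).toMonoidHom.comp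
    (alternatingGroup α).subtype
  let K : Subgroup (Perm α) := (F1.eqLocus F2).map (alternatingGroup α).subtype
  have hKmem : ∀ g : alternatingGroup α,
      ((φ g : alternatingGroup α) : Perm α) = σ * g * σ⁻¹ → (g : Perm α) ∈ K := by
    intro g hg
    exact ⟨g, hg, rfl⟩
  have hbase : ∀ (g : Perm α) (i : α), C3 g p q i → g ∈ K := by
    intro g i hg
    have h1 : i ≠ p := hg.ca
    have h2 : i ≠ q := hg.bc.symm
    have h3 : g = U i := hg.ext (hU i h1 h2)
    rw [h3]
    apply hKmem
    rw [← hT]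
    have h4 := (hU i h1 h2).conj σ
    rw [hσ, hσ, hσ, fp, fq, fi i h1 h2] at h4
    exact (hTC i h1 h2).ext h4
  have hstep1 : ∀ (g : Perm α) (y z : α), C3 g p y z → g ∈ K := by
    intro g y z hg
    by_cases hy : y = q
    · rw [hy] at hg
      exact hbase g z hg
    by_cases hz : z = q
    · rw [hz] at hg
      have h1 : g⁻¹ ∈ K := hbase g⁻¹ y hg.rot.rot.inv
      rw [← inv_inv g]
      exact K.inv_mem h1
    have hyp : y ≠ p := hg.ab.symm
    have hzp : z ≠ p := hg.ca
    have h1 := hU z hzp hz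
    have h2 := hU y hyp hy
    have h3 : C3 ((U z : Perm α) * (U y : Perm α)⁻¹) p y z := by
      have h2' := h2.inv
      refine ⟨hg.ab, hg.bc, hg.ca, ?_, ?_, ?_, ?_⟩
      · rw [Perm.mul_apply, h2'.fb, h1.fz y hyp hy hg.bc]
      · rw [Perm.mul_apply, h2'.fc, h1.fb]
      · rw [Perm.mul_apply, h2'.fz z hz hzp hg.bc.symm, h1.fc]
      · intro w w1 w2 w3
        rw [Perm.mul_apply]
        by_cases w4 : w = q
        · rw [w4, h2'.fa, h1.fa]
        · rw [h2'.fz w w4 w1 w2, h1.fz w w1 w4 w3]
    rw [hg.ext h3]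
    exact K.mul_mem (hbase _ z h1) (K.inv_mem (hbase _ y h2))
  have hstep2 : ∀ (g : Perm α) (x y z : α), C3 g x y z → g ∈ K := by
    intro g x y z hg
    by_cases hx : x = p
    · rw [hx] at hg
      exact hstep1 g y z hg
    by_cases hy : y = p
    · rw [hy] at hg
      exact hstep1 g z x hg.rot
    by_cases hz : z = p
    · rw [hz] at hg
      exact hstep1 g x y hg.rot.rot
    have h1 := C3.cyc (a := p) (b := x) (c := y) (Ne.symm hx) hg.ab hy
    have h2 := C3.cyc (a := p) (b := y) (c := z) (Ne.symm hy) hg.bc hz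
    have h3 : C3 ((swap p y * swap p x) * (swap p z * swap p y)) x y z := by
      refine ⟨hg.ab, hg.bc, hg.ca, ?_, ?_, ?_, ?_⟩
      · rw [Perm.mul_apply, h2.fz x hx hg.ab hg.ca.symm, h1.fb]
      · rw [Perm.mul_apply, h2.fb, h1.fz z hz hg.ca hg.bc.symm]
      · rw [Perm.mul_apply, h2.fc, h1.fa]
      · intro w w1 w2 w3
        rw [Perm.mul_apply]
        by_cases w4 : w = p
        · rw [w4, h2.fa, h1.fc]
        · rw [h2.fz w w4 w2 w3, h1.fz w w4 w1 w2]
    rw [hg.ext h3]
    exact K.mul_mem (hstep1 _ x y h1) (hstep1 _ y z h2)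
  have hle : alternatingGroup α ≤ K := by
    rw [← closure_three_cycles_eq_alternating, Subgroup.closure_le]
    intro t ht
    have ht' : t.IsThreeCycle := ht
    obtain ⟨x, hx⟩ : ∃ x, t x ≠ x := by
      by_contra hcon
      push Not at hcon
      have : t = 1 := Equiv.ext hcon
      rw [this] at ht'
      have h3 := ht'.card_support
      rw [Perm.support_one] at h3
      exact absurd h3 (by simp)
    exact hstep2 t _ _ _ (of_three ht' hx)
  intro g
  obtain ⟨e, he, heg⟩ := hle g.2
  have h1 : e = g := Subtype.ext heg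
  rw [← h1]
  exact he

end

/-- A3I: automorphisms which map 3-cycles to 3-cycles -/
theorem pf_A3I : FI.T_A3I := by
  intro m hm φ hφ
  refine main φ hφ ⟨0, by omega⟩ ⟨1, by omega⟩ ⟨2, by omega⟩ ⟨3, by omega⟩ ?_ ?_ ?_ ?_ ?_ ?_ <;>
    simp [Fin.ext_iff]

end Pool.Agent.H7.FN
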